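import Mathlib

set_option autoImplicit false

/-!
A tangent line at a flex of an elliptic curve is not a constant times a cube in the function field.
-/

open Polynomial

namespace Pool.Agent.H90HL

section

variable {K : Type} [Field K] [CharZero K]

/-- `X ^ 3 + A X + B` -/
noncomputable def cub (A B : K) : K[X] := X ^ 3 + C A * X + C B

omit [CharZero K] in
lemma cub_deg (A B : K) : (cub A B).natDegree = 3 := by
  unfold cub
  compute_degree!

omit [CharZero K] in
lemma cub_monic (A B : K) : (cub A B).Monic := by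
  unfold cub
  monicity!

omit [CharZero K] in
lemma cub_sqf {A B : K} (h : 4 * A ^ 3 + 27 * B ^ 2 ≠ 0) : Squarefree (cub A B) := by
  apply Polynomial.Separable.squarefree
  rw [Polynomial.separable_def']
  obtain ⟨δ, hδ⟩ : ∃ δ, δ = 4 * A ^ 3 + 27 * B ^ 2 := ⟨_, rfl⟩
  rw [← hδ] at h
  refine ⟨C (-δ⁻¹) * (C (18 * A) * X - C (27 * B)),
    C δ⁻¹ * (C (6 * A) * X ^ 2 - C (9 * B) * X + C (4 * A ^ 2)), ?_⟩
  have h1 : (cub A B).derivative = C 3 * X ^ 2 + C A := by
    unfold cub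
    simp
    rw [← C_1, ← C_add]
    norm_num
  rw [h1]
  unfold cub
  have h2 : (C δ⁻¹ * C δ : K[X]) = 1 := by
    rw [← C_mul, inv_mul_cancel₀ h, C_1]
  have h3 : (C δ : K[X]) = 4 * C A ^ 3 + 27 * C B ^ 2 := by
    rw [hδ]
    simp only [C_add, C_mul, C_pow]
    rfl
  rw [h3] at h2
  simp only [C_neg, C_mul, C_pow]
  have e18 : (C (18 : K) : K[X]) = 18 := rfl
  have e27 : (C (27 : K) : K[X]) = 27 := rfl
  have e6 : (C (6 : K) : K[X]) = 6 := rfl
  have e9 : (C (9 : K) : K[X]) = 9 := rfl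
  have e4 : (C (4 : K) : K[X]) = 4 := rfl
  have e3 : (C (3 : K) : K[X]) = 3 := rfl
  rw [e18, e27, e6, e9, e4, e3]
  linear_combination h2

omit [CharZero K] in
/-- a fraction with a power which is a polynomial -/
lemma frac_pol {F : Type} [Field F] [Algebra K[X] F] [IsFractionRing K[X] F] {a : F} {q : K[X]}
    {n : ℕ} (hn : n ≠ 0) (h : a ^ n = algebraMap K[X] F q) : ∃ p : K[X], algebraMap K[X] F p = a := by
  apply IsIntegrallyClosed.isIntegral_iff.1
  apply IsIntegral.of_pow (Nat.pos_of_ne_zero hn)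
  rw [h]
  exact isIntegral_algebraMap

theorem flex_not_cube {F : Type} [Field F] [Algebra K[X] F] [IsFractionRing K[X] F]
    {A B l ν u κ : K} (hΔ : 4 * A ^ 3 + 27 * B ^ 2 ≠ 0)
    (hid : cub A B - (C l * X + C ν) ^ 2 = (X - C u) ^ 3) (hκ : κ ≠ 0) (a b : F)
    (h1 : a ^ 3 + 3 * a * b ^ 2 * algebraMap K[X] F (cub A B) =
      -algebraMap K[X] F (C κ * (C l * X + C ν)))
    (h2 : 3 * a ^ 2 * b + b ^ 3 * algebraMap K[X] F (cub A B) = algebraMap K[X] F (C κ)) : False := by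
  obtain ⟨φ, hφ⟩ : ∃ φ, φ = algebraMap K[X] F := ⟨_, rfl⟩
  have hinj : Function.Injective φ := by rw [hφ]; exact IsFractionRing.injective K[X] F
  rw [← hφ] at h1 h2
  obtain ⟨f, hf⟩ : ∃ f, f = cub A B := ⟨_, rfl⟩
  have hf3 : f.natDegree = 3 := by rw [hf]; exact cub_deg A B
  have hsq : Squarefree f := by rw [hf]; exact cub_sqf hΔ
  rw [← hf] at h1 h2 hid
  have hf0 : f ≠ 0 := by rintro rfl; simp at hf3
  -- the norm
  have hn3 : (a ^ 2 - b ^ 2 * φ f) ^ 3 = φ (-(C κ ^ 2 * (X - C u) ^ 3)) := by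
    have e1 : (a ^ 2 - b ^ 2 * φ f) ^ 3 =
        (a ^ 3 + 3 * a * b ^ 2 * φ f) ^ 2 - φ f * (3 * a ^ 2 * b + b ^ 3 * φ f) ^ 2 := by ring
    rw [e1, h1, h2, ← hid]
    simp only [map_mul, map_neg, map_sub, map_pow]
    ring
  obtain ⟨N, hN⟩ := frac_pol (F := F) (n := 3) (by norm_num) (by rw [hn3, hφ])
  rw [← hφ] at hN
  have hN3 : N ^ 3 = -(C κ ^ 2 * (X - C u) ^ 3) := by
    apply hinj
    rw [map_pow, hN, hn3]
  have hNdeg : N.natDegree = 1 := by
    have e1 := congrArg natDegree hN3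
    rw [natDegree_pow, natDegree_neg, ← C_pow, natDegree_C_mul (pow_ne_zero _ hκ), natDegree_pow,
      natDegree_X_sub_C] at e1
    omega
  -- the trace
  have ht : ∃ t : K[X], φ t = a := by
    rw [hφ]
    apply IsIntegrallyClosed.isIntegral_iff.1
    -- `4 a ^ 3 - 3 N a + κ (l X + ν) = 0`
    have e1 : (2 * a) ^ 3 + φ (-(3 * N)) * (2 * a) + φ (2 * C κ * (C l * X + C ν)) = 0 := by
      have e2 : a ^ 3 + 3 * a * b ^ 2 * φ f = 4 * a ^ 3 - 3 * φ N * a := by
        rw [hN]; ring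
      rw [e2] at h1
      simp only [map_neg, map_mul, map_ofNat] at h1 ⊢
      linear_combination 2 * h1
    have e3 : IsIntegral K[X] (2 * a) := by
      refine ⟨X ^ 3 + C (-(3 * N)) * X + C (2 * C κ * (C l * X + C ν)), ?_, ?_⟩
      · monicity!
      · simp only [eval₂_add, eval₂_mul, eval₂_pow, eval₂_X, eval₂_C]
        rw [← hφ]
        exact e1
    have e4 : a = (φ (C (1 / 2))) * (2 * a) := by
      have e5 : φ (C (1 / 2)) * 2 = 1 := by
        have : (C (1 / 2) : K[X]) * 2 = 1 := by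
          have h2 : (2 : K[X]) = C 2 := rfl
          rw [h2, ← C_mul, one_div, inv_mul_cancel₀ two_ne_zero, C_1]
        have := congrArg φ this
        rwa [map_mul, map_one, map_ofNat] at this
      linear_combination -a * e5
    rw [e4, hφ]
    exact isIntegral_algebraMap.mul e3
  obtain ⟨t, ht⟩ := ht
  -- the other coordinate
  have hb1 : (φ f * b) ^ 2 = φ (f * (t ^ 2 - N)) := by
    rw [map_mul, map_sub, map_pow, ht, hN]
    ring
  obtain ⟨g, hg⟩ := frac_pol (F := F) (n := 2) (by norm_num) (by rw [hb1, hφ])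
  rw [← hφ] at hg
  have hg2 : g ^ 2 = f * (t ^ 2 - N) := by
    apply hinj
    rw [map_pow, hg, hb1]
  have hfg : f ∣ g := (hsq.dvd_pow_iff_dvd two_ne_zero).1 ⟨_, hg2⟩
  obtain ⟨r, hr⟩ := hfg
  have hbr : b = φ r := by
    have e1 : φ f ≠ 0 := fun h => hf0 (hinj (by rw [h, map_zero]))
    apply mul_left_cancel₀ e1
    rw [← hg, hr, map_mul]
  have hfin : f * r ^ 2 = t ^ 2 - N := by
    apply mul_left_cancel₀ hf0
    rw [← hg2, hr]
    ring
  by_cases hr0 : r = 0
  · rw [hbr, hr0, map_zero] at h2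
    have : φ (C κ) = 0 := by rw [← h2]; ring
    have := hinj (this.trans (map_zero φ).symm)
    exact hκ (C_eq_zero.1 this)
  · have e1 : (f * r ^ 2).natDegree = 3 + 2 * r.natDegree := by
      rw [natDegree_mul hf0 (pow_ne_zero _ hr0), hf3, natDegree_pow]
    have e2 : t ^ 2 = f * r ^ 2 + N := by rw [hfin]; ring
    have e3 : (t ^ 2).natDegree = 3 + 2 * r.natDegree := by
      rw [e2, natDegree_add_eq_left_of_natDegree_lt (by rw [e1, hNdeg]; omega), e1]
    rw [natDegree_pow] at e3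
    omega

end

end Pool.Agent.H90HL
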