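import Pool.Agent.H90HL.F1

set_option autoImplicit false

/-!
The function field of an elliptic curve and a constant field extension.
-/

open Polynomial

namespace Pool.Agent.H90HL

/-- `Y ^ 2 - X ^ 3 - A X - B` -/
noncomputable def wei (A B : ℤ) : MvPolynomial (Fin 2) ℤ :=
  MvPolynomial.X 1 ^ 2 - (MvPolynomial.X 0 ^ 3 + MvPolynomial.C A * MvPolynomial.X 0 + MvPolynomial.C B)

section

variable {K : Type} [Field K] [CharZero K] {L : Type} [Field L] [Algebra ℚ L]

/-- the first coordinate is transcendental over constants -/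
lemma transc [Algebra.IsAlgebraic ℚ K] {A B : ℤ} (π : MvPolynomial (Fin 2) ℚ →ₐ[ℚ] L)
    (hker : ∀ w, π w = 0 ↔ MvPolynomial.map (Int.castRingHom ℚ) (wei A B) ∣ w)
    {Ω : Type} [Field Ω] (i : L →+* Ω) (σ : K →+* Ω) :
    Function.Injective (eval₂RingHom σ (i (π (MvPolynomial.X 0)))) := by
  have hch : CharZero Ω := charZero_of_injective_ringHom σ.injective
  rw [injective_iff_map_eq_zero]
  intro q hq
  by_contra hq0
  let _ : Algebra K Ω := σ.toAlgebra
  have h1 : IsAlgebraic K (i (π (MvPolynomial.X 0))) := ⟨q, hq0, hq⟩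
  have h2 : IsAlgebraic ℚ (i (π (MvPolynomial.X 0))) := h1.restrictScalars ℚ
  obtain ⟨r, hr0, hr⟩ := h2
  have h3 : i (aeval (π (MvPolynomial.X 0)) r) = 0 := by
    rw [← hr]
    rw [aeval_def, hom_eval₂, aeval_def]
    congr 1
    exact Subsingleton.elim _ _
  rw [map_eq_zero, aeval_algHom_apply, hker] at h3
  obtain ⟨g, hg⟩ := h3
  apply hr0
  have h4 : r.map (algebraMap ℚ ℂ) = 0 := by
    apply Polynomial.funext
    intro x
    obtain ⟨y, hy⟩ := IsAlgClosed.exists_pow_nat_eq (x ^ 3 + A * x + B : ℂ) (n := 2) (by norm_num)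
    have h5 := congrArg (MvPolynomial.aeval ![x, y]) hg
    rw [← aeval_algHom_apply, map_mul] at h5
    have h6 : MvPolynomial.aeval ![x, y] (MvPolynomial.map (Int.castRingHom ℚ) (wei A B)) =
        (0 : ℂ) := by
      unfold wei
      simp [hy]
    rw [h6, zero_mul] at h5
    rw [eval_map, eval_zero, ← h5, aeval_def]
    simp
  exact (Polynomial.map_eq_zero _).1 h4

/-- elements of the compositum -/
lemma rep [Algebra.IsAlgebraic ℚ K] {A B : ℤ} (π : MvPolynomial (Fin 2) ℚ →ₐ[ℚ] L)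
    (hsurj : ∀ z : L, ∃ w1 w2, π w2 ≠ 0 ∧ π w2 * z = π w1)
    {Ω : Type} [Field Ω] (i : L →+* Ω) (σ : K →+* Ω)
    (Φ : FractionRing K[X] →+* Ω)
    (hΦ : ∀ q : K[X], Φ (algebraMap _ _ q) = eval₂ σ (i (π (MvPolynomial.X 0))) q)
    (hY : (i (π (MvPolynomial.X 1))) ^ 2 = Φ (algebraMap _ _ (cub (A : K) (B : K))))
    (w : Ω) (hw : w ∈ Subfield.closure (Set.range i ∪ Set.range σ)) :
    ∃ a b, w = Φ a + Φ b * i (π (MvPolynomial.X 1)) := by
  have hch : CharZero Ω := charZero_of_injective_ringHom σ.injective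
  obtain ⟨Y, hYd⟩ : ∃ Y, Y = i (π (MvPolynomial.X 1)) := ⟨_, rfl⟩
  rw [← hYd] at hY ⊢
  obtain ⟨f, hf⟩ : ∃ f, f = algebraMap K[X] (FractionRing K[X]) (cub (A : K) (B : K)) := ⟨_, rfl⟩
  rw [← hf] at hY
  have hmul : ∀ w1 w2 : Ω, (∃ a b, w1 = Φ a + Φ b * Y) → (∃ a b, w2 = Φ a + Φ b * Y) →
      ∃ a b, w1 * w2 = Φ a + Φ b * Y := by
    rintro w1 w2 ⟨a, b, rfl⟩ ⟨c, d, rfl⟩
    refine ⟨a * c + b * d * f, a * d + b * c, ?_⟩
    simp only [map_add, map_mul]
    rw [← hY]; ring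
  have hadd : ∀ w1 w2 : Ω, (∃ a b, w1 = Φ a + Φ b * Y) → (∃ a b, w2 = Φ a + Φ b * Y) →
      ∃ a b, w1 + w2 = Φ a + Φ b * Y := by
    rintro w1 w2 ⟨a, b, rfl⟩ ⟨c, d, rfl⟩
    refine ⟨a + c, b + d, ?_⟩
    simp only [map_add]
    ring
  have hinv : ∀ w1 : Ω, (∃ a b, w1 = Φ a + Φ b * Y) → ∃ a b, w1⁻¹ = Φ a + Φ b * Y := by
    rintro w1 ⟨a, b, rfl⟩
    by_cases h0 : Φ a + Φ b * Y = 0
    · exact ⟨0, 0, by rw [h0]; simp⟩
    · by_cases h1 : Φ a - Φ b * Y = 0
      · refine ⟨(2 * a)⁻¹, 0, ?_⟩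
        have h2 : Φ a + Φ b * Y = Φ (2 * a) := by
          rw [map_mul, map_ofNat]
          linear_combination -h1
        rw [h2, map_inv₀, map_zero, zero_mul, add_zero]
      · refine ⟨a / (a ^ 2 - b ^ 2 * f), -b / (a ^ 2 - b ^ 2 * f), ?_⟩
        have h2 : Φ (a ^ 2 - b ^ 2 * f) = (Φ a + Φ b * Y) * (Φ a - Φ b * Y) := by
          simp only [map_sub, map_mul, map_pow]
          rw [← hY]; ring
        rw [map_div₀, map_div₀, h2, map_neg]
        field_simp
        ring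
  have hpol : ∀ q : MvPolynomial (Fin 2) ℚ, ∃ a b, i (π q) = Φ a + Φ b * Y := by
    intro q
    induction q using MvPolynomial.induction_on with
    | C c =>
      refine ⟨algebraMap K[X] _ (C (c : K)), 0, ?_⟩
      rw [hΦ, eval₂_C, map_zero, zero_mul, add_zero, map_ratCast]
      have h2 : π (MvPolynomial.C c) = (c : L) := by
        rw [← MvPolynomial.algebraMap_eq, π.commutes]
        simp
      rw [h2, map_ratCast]
    | add p q hp hq =>
      rw [map_add, map_add]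
      exact hadd _ _ hp hq
    | mul_X p n hp =>
      rw [map_mul, map_mul]
      apply hmul _ _ hp
      fin_cases n
      · refine ⟨algebraMap K[X] _ X, 0, ?_⟩
        rw [hΦ, eval₂_X, map_zero, zero_mul, add_zero]
        rfl
      · refine ⟨0, 1, ?_⟩
        rw [map_zero, map_one, one_mul, zero_add, hYd]
        rfl
  induction hw using Subfield.closure_induction with
  | mem w hw =>
    rcases hw with ⟨z, rfl⟩ | ⟨k, rfl⟩
    · obtain ⟨w1, w2, h1, h2⟩ := hsurj z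
      have h3 : i z = i (π w1) * (i (π w2))⁻¹ := by
        have h4 : i (π w2) ≠ 0 := by
          rw [Ne, map_eq_zero]; exact h1
        rw [← h2, map_mul]
        field_simp
      rw [h3]
      exact hmul _ _ (hpol w1) (hinv _ (hpol w2))
    · refine ⟨algebraMap K[X] _ (C k), 0, ?_⟩
      rw [hΦ, eval₂_C, map_zero, zero_mul, add_zero]
  | one => exact ⟨1, 0, by simp⟩
  | add w1 w2 _ _ h1 h2 => exact hadd _ _ h1 h2
  | neg w1 _ h1 =>
    obtain ⟨a, b, hab⟩ := h1
    exact ⟨-a, -b, by rw [hab, map_neg, map_neg]; ring⟩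
  | inv w1 _ h1 => exact hinv _ h1
  | mul w1 w2 _ _ h1 h2 => exact hmul _ _ h1 h2

/-- the function of a point of order three is not a constant times a cube -/
theorem no_cube [Algebra.IsAlgebraic ℚ K] {A B : ℤ} (hΔ : 4 * A ^ 3 + 27 * B ^ 2 ≠ 0)
    (π : MvPolynomial (Fin 2) ℚ →ₐ[ℚ] L)
    (hker : ∀ w, π w = 0 ↔ MvPolynomial.map (Int.castRingHom ℚ) (wei A B) ∣ w)
    (hsurj : ∀ z : L, ∃ w1 w2, π w2 ≠ 0 ∧ π w2 * z = π w1)
    {Ω : Type} [Field Ω] (i : L →+* Ω) (σ : K →+* Ω) {l ν u : K}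
    (hid : cub (A : K) B - (C l * X + C ν) ^ 2 = (X - C u) ^ 3) {κ : K} (hκ : κ ≠ 0)
    (w : Ω) (hw : w ∈ Subfield.closure (Set.range i ∪ Set.range σ)) :
    w ^ 3 ≠ σ κ * (i (π (MvPolynomial.X 1)) - σ l * i (π (MvPolynomial.X 0)) - σ ν) := by
  intro h
  have hinj := transc (K := K) π hker i σ
  obtain ⟨Φ, hΦ⟩ : ∃ Φ : FractionRing K[X] →+* Ω,
      ∀ q : K[X], Φ (algebraMap _ _ q) = eval₂ σ (i (π (MvPolynomial.X 0))) q :=
    ⟨IsFractionRing.lift hinj, fun q => IsFractionRing.lift_algebraMap hinj q⟩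
  have hY : (i (π (MvPolynomial.X 1))) ^ 2 = Φ (algebraMap _ _ (cub (A : K) (B : K))) := by
    have h1 : π (MvPolynomial.map (Int.castRingHom ℚ) (wei A B)) = 0 := (hker _).2 dvd_rfl
    have h2 := congrArg i h1
    rw [map_zero] at h2
    unfold wei at h2
    simp only [map_sub, map_add, map_mul, map_pow, MvPolynomial.map_X, MvPolynomial.map_C] at h2
    rw [hΦ]
    unfold cub
    simp only [eval₂_add, eval₂_mul, eval₂_pow, eval₂_X, eval₂_C]
    rw [map_intCast, map_intCast]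
    have h3 : ∀ c : ℤ, i (π (MvPolynomial.C ((Int.castRingHom ℚ) c))) = (c : Ω) := by
      intro c
      rw [← MvPolynomial.algebraMap_eq, π.commutes]
      simp
    rw [h3, h3] at h2
    linear_combination h2
  obtain ⟨a, b, hab⟩ := rep π hsurj i σ Φ hΦ hY w hw
  obtain ⟨Y, hYd⟩ : ∃ Y, Y = i (π (MvPolynomial.X 1)) := ⟨_, rfl⟩
  rw [← hYd] at hY hab h
  obtain ⟨f, hf⟩ : ∃ f, f = algebraMap K[X] (FractionRing K[X]) (cub (A : K) (B : K)) := ⟨_, rfl⟩
  rw [← hf] at hY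
  have hind : ∀ p q : FractionRing K[X], Φ p + Φ q * Y = 0 → p = 0 ∧ q = 0 := by
    intro p q hpq
    have hq : q = 0 := by
      by_contra hq
      have h1 : Y = Φ (-p / q) := by
        have h2 : Φ q ≠ 0 := by rw [Ne, map_eq_zero]; exact hq
        rw [map_div₀, map_neg, eq_div_iff h2]
        linear_combination hpq
      rw [h1, ← map_pow] at hY
      have h2 := Φ.injective hY
      rw [hf] at h2
      obtain ⟨g, hg⟩ := frac_pol (K := K) two_ne_zero h2
      rw [← hg, ← map_pow] at h2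
      have h3 := IsFractionRing.injective K[X] (FractionRing K[X]) h2
      have h4 := congrArg natDegree h3
      rw [natDegree_pow, cub_deg] at h4
      omega
    subst hq
    rw [map_zero, zero_mul, add_zero, map_eq_zero] at hpq
    exact ⟨hpq, rfl⟩
  have hlin : σ l * i (π (MvPolynomial.X 0)) + σ ν = Φ (algebraMap _ _ (C l * X + C ν)) := by
    rw [hΦ]
    simp
  have hκ' : σ κ = Φ (algebraMap _ _ (C κ)) := by rw [hΦ]; simp
  have h5 : Φ (a ^ 3 + 3 * a * b ^ 2 * f + algebraMap _ _ (C κ * (C l * X + C ν))) +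
      Φ (3 * a ^ 2 * b + b ^ 3 * f - algebraMap _ _ (C κ)) * Y = 0 := by
    simp only [map_add, map_sub, map_mul, map_pow, map_ofNat] at hlin ⊢
    rw [← hY]
    rw [hab] at h
    rw [hκ'] at h
    linear_combination h - Φ (algebraMap _ _ (C κ)) * hlin
  obtain ⟨h6, h7⟩ := hind _ _ h5
  refine flex_not_cube (F := FractionRing K[X]) (A := (A : K)) (B := (B : K)) ?_ hid hκ a b ?_ ?_
  · exact_mod_cast hΔ
  · rw [← hf]
    linear_combination h6
  · rw [← hf]
    linear_combination h7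

end

end Pool.Agent.H90HL
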