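import Pool.Agent.H90HL.F2
import Pool.Agent.H90GC.H6

set_option autoImplicit false

/-!
The polynomial of a Weierstrass curve, and its place at infinity.
-/

open Polynomial

namespace Pool.Agent.H90HL

lemma wei_irr (A B : ℤ) : Irreducible (MvPolynomial.map (Int.castRingHom ℚ) (wei A B)) := by
  have h := WeierstrassCurve.Affine.irreducible_polynomial
    (W := (⟨0, 0, 0, (A : ℚ), (B : ℚ)⟩ : WeierstrassCurve.Affine ℚ))
  obtain ⟨e, he⟩ : ∃ e : MvPolynomial (Fin 2) ℚ ≃ₐ[ℚ] ℚ[X][X], e =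
      (MvPolynomial.renameEquiv ℚ (Equiv.swap (0 : Fin 2) 1)).trans
      ((MvPolynomial.finSuccEquiv ℚ 1).trans
        (Polynomial.mapAlgEquiv (MvPolynomial.uniqueAlgEquiv ℚ (Fin 1)))) := ⟨_, rfl⟩
  have h1 : e (MvPolynomial.X 1) = X := by
    rw [he]
    simp [MvPolynomial.finSuccEquiv_X_zero]
  have h0 : e (MvPolynomial.X 0) = C X := by
    rw [he]
    have h2 : (1 : Fin 2) = Fin.succ 0 := rfl
    simp only [AlgEquiv.trans_apply, MvPolynomial.renameEquiv_apply, MvPolynomial.rename_X,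
      Equiv.swap_apply_left]
    rw [h2, MvPolynomial.finSuccEquiv_X_succ]
    simp
  have hc : ∀ c : ℚ, e (MvPolynomial.C c) = C (C c) := by
    intro c
    rw [← MvPolynomial.algebraMap_eq, e.commutes]
    rfl
  have h3 : e (MvPolynomial.map (Int.castRingHom ℚ) (wei A B)) =
      WeierstrassCurve.Affine.polynomial
        (⟨0, 0, 0, (A : ℚ), (B : ℚ)⟩ : WeierstrassCurve.Affine ℚ) := by
    unfold wei WeierstrassCurve.Affine.polynomial
    simp only [map_sub, map_add, map_mul, map_pow, MvPolynomial.map_X, MvPolynomial.map_C, h0, h1,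
      hc]
    simp
  rw [← h3] at h
  exact (MulEquiv.irreducible_iff e).1 h

lemma wei_eval (A B x y : ℤ) : MvPolynomial.eval ![x, y] (wei A B) = y ^ 2 - (x ^ 3 + A * x + B) := by
  unfold wei
  simp

lemma wei_deg (A B : ℤ) : (wei A B).totalDegree ≤ 3 := by
  unfold wei
  refine (MvPolynomial.totalDegree_sub _ _).trans (max_le ?_ ?_)
  · refine (MvPolynomial.totalDegree_pow _ _).trans ?_
    rw [MvPolynomial.totalDegree_X]; norm_num
  · refine (MvPolynomial.totalDegree_add _ _).trans (max_le ?_ ?_)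
    · refine (MvPolynomial.totalDegree_add _ _).trans (max_le ?_ ?_)
      · refine (MvPolynomial.totalDegree_pow _ _).trans ?_
        rw [MvPolynomial.totalDegree_X]
      · refine (MvPolynomial.totalDegree_mul _ _).trans ?_
        rw [MvPolynomial.totalDegree_X, MvPolynomial.totalDegree_C]; norm_num
    · rw [MvPolynomial.totalDegree_C]; norm_num

open Pool.Agent.H90GC Pool.Agent.H322R2

lemma len_mono (c : ℤ) (e : Fin 2 →₀ ℕ) : len (MvPolynomial.monomial e c) ≤ c.natAbs := by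
  rw [len_eq' (s := {e}) MvPolynomial.support_monomial_subset, Finset.sum_singleton,
    MvPolynomial.coeff_monomial, if_pos rfl]

lemma len_CX (c : ℤ) (i : Fin 2) (k : ℕ) :
    len (MvPolynomial.C c * MvPolynomial.X i ^ k) ≤ c.natAbs := by
  rw [MvPolynomial.X_pow_eq_monomial, MvPolynomial.C_mul_monomial, mul_one]
  exact len_mono c _

lemma wei_len (A B : ℤ) : len (wei A B) ≤ 2 + A.natAbs + B.natAbs := by
  have h1 : wei A B = MvPolynomial.C 1 * MvPolynomial.X 1 ^ 2 +
      (MvPolynomial.C (-1) * MvPolynomial.X 0 ^ 3 + (MvPolynomial.C (-A) * MvPolynomial.X 0 ^ 1 +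
        MvPolynomial.C (-B) * MvPolynomial.X 0 ^ 0)) := by
    unfold wei
    simp only [map_neg, map_one]
    ring
  rw [h1]
  refine (len_add' _ _).trans ?_
  have a1 := len_CX 1 1 2
  have a2 := len_CX (-1) 0 3
  have a3 := len_CX (-A) 0 1
  have a4 := len_CX (-B) 0 0
  have a5 := len_add' (MvPolynomial.C (-1) * MvPolynomial.X (0 : Fin 2) ^ 3)
    (MvPolynomial.C (-A) * MvPolynomial.X (0 : Fin 2) ^ 1 +
        MvPolynomial.C (-B) * MvPolynomial.X (0 : Fin 2) ^ 0)
  have a6 := len_add' (MvPolynomial.C (-A) * MvPolynomial.X (0 : Fin 2) ^ 1)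
    (MvPolynomial.C (-B) * MvPolynomial.X (0 : Fin 2) ^ 0)
  rw [Int.natAbs_neg] at a2 a3 a4
  rw [Int.natAbs_one] at a1 a2
  omega

/-- `c₁ Y + c₂ X + c₃` -/
noncomputable def lin (c : Fin 3 → ℤ) : MvPolynomial (Fin 2) ℤ :=
  MvPolynomial.C (c 0) * MvPolynomial.X 1 + MvPolynomial.C (c 1) * MvPolynomial.X 0 +
    MvPolynomial.C (c 2)

lemma lin_deg (c : Fin 3 → ℤ) : (lin c).totalDegree ≤ 3 := by
  unfold lin
  refine (MvPolynomial.totalDegree_add _ _).trans (max_le ?_ ?_)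
  · refine (MvPolynomial.totalDegree_add _ _).trans (max_le ?_ ?_)
    · refine (MvPolynomial.totalDegree_mul _ _).trans ?_
      rw [MvPolynomial.totalDegree_X, MvPolynomial.totalDegree_C]; norm_num
    · refine (MvPolynomial.totalDegree_mul _ _).trans ?_
      rw [MvPolynomial.totalDegree_X, MvPolynomial.totalDegree_C]; norm_num
  · rw [MvPolynomial.totalDegree_C]; norm_num

lemma lin_len (c : Fin 3 → ℤ) : len (lin c) ≤ (c 0).natAbs + (c 1).natAbs + (c 2).natAbs := by
  have h1 : lin c = (MvPolynomial.C (c 0) * MvPolynomial.X 1 ^ 1 +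
      MvPolynomial.C (c 1) * MvPolynomial.X 0 ^ 1) + MvPolynomial.C (c 2) * MvPolynomial.X 0 ^ 0 := by
    unfold lin
    ring
  rw [h1]
  have a1 := len_CX (c 0) 1 1
  have a2 := len_CX (c 1) 0 1
  have a3 := len_CX (c 2) 0 0
  have a5 := len_add' (MvPolynomial.C (c 0) * MvPolynomial.X (1 : Fin 2) ^ 1 +
      MvPolynomial.C (c 1) * MvPolynomial.X (0 : Fin 2) ^ 1)
        (MvPolynomial.C (c 2) * MvPolynomial.X (0 : Fin 2) ^ 0)
  have a6 := len_add' (MvPolynomial.C (c 0) * MvPolynomial.X (1 : Fin 2) ^ 1)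
      (MvPolynomial.C (c 1) * MvPolynomial.X (0 : Fin 2) ^ 1)
  omega

lemma lin_eval (c : Fin 3 → ℤ) (x y : ℤ) :
    MvPolynomial.eval ![x, y] (lin c) = c 0 * y + c 1 * x + c 2 := by
  unfold lin
  simp

/-- the leading terms at the place at infinity -/
theorem place {L : Type} [Field L] [Algebra ℚ L] {A B : ℤ}
    (π : MvPolynomial (Fin 2) ℚ →ₐ[ℚ] L)
    (hker : ∀ w, π w = 0 ↔ MvPolynomial.map (Int.castRingHom ℚ) (wei A B) ∣ w)
    (V : ValuationSubring L)
    (hnot : ¬ (π (MvPolynomial.X 0) ∈ V ∧ π (MvPolynomial.X 1) ∈ V)) :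
    π (MvPolynomial.X 1) / π (MvPolynomial.X 0) ≠ 0 ∧
    ∀ c : Fin 3 → ℤ, ∃ h : π (MvPolynomial.map (Int.castRingHom ℚ) (lin c)) /
        (π (MvPolynomial.X 1) / π (MvPolynomial.X 0)) ^ 3 ∈ V,
      IsLocalRing.residue V ⟨_, h⟩ = ((c 0 : ℤ) : IsLocalRing.ResidueField V) := by
  have hC : ∀ c : ℤ, π (MvPolynomial.C ((Int.castRingHom ℚ) c)) = (c : L) := by
    intro c
    rw [← MvPolynomial.algebraMap_eq, π.commutes]
    simp
  have hlin : ∀ c : Fin 3 → ℤ, π (MvPolynomial.map (Int.castRingHom ℚ) (lin c)) =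
      (c 0 : L) * π (MvPolynomial.X 1) + (c 1 : L) * π (MvPolynomial.X 0) + (c 2 : L) := by
    intro c
    unfold lin
    simp only [map_add, map_mul, MvPolynomial.map_X, MvPolynomial.map_C, hC]
  have hE : π (MvPolynomial.X 1) ^ 2 = π (MvPolynomial.X 0) ^ 3 + A * π (MvPolynomial.X 0) + B := by
    have h1 : π (MvPolynomial.map (Int.castRingHom ℚ) (wei A B)) = 0 := (hker _).2 dvd_rfl
    unfold wei at h1
    simp only [map_sub, map_add, map_mul, map_pow, MvPolynomial.map_X, MvPolynomial.map_C, hC] at h1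
    linear_combination h1
  simp only [hlin]
  obtain ⟨x, hx⟩ : ∃ x, x = π (MvPolynomial.X 0) := ⟨_, rfl⟩
  obtain ⟨y, hy⟩ : ∃ y, y = π (MvPolynomial.X 1) := ⟨_, rfl⟩
  simp only [← hx, ← hy] at hE hnot ⊢
  have hsq : ∀ s : L, s ^ 2 ∈ V → s ∈ V := by
    intro s hs
    rcases V.mem_or_inv_mem s with h | h
    · exact h
    · by_cases hs0 : s = 0
      · rw [hs0]; exact V.zero_mem
      · have : s = s ^ 2 * s⁻¹ := by field_simp
        rw [this]
        exact V.mul_mem _ _ hs h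
  have hxV : x ∉ V := by
    intro hxV
    apply hnot
    refine ⟨hxV, hsq y ?_⟩
    rw [hE]
    exact V.add_mem _ _ (V.add_mem _ _ (pow_mem hxV 3) (V.mul_mem _ _ (intCast_mem V A) hxV))
      (intCast_mem V B)
  have hx0 : x ≠ 0 := by rintro rfl; exact hxV V.zero_mem
  have haV : x⁻¹ ∈ V := (V.mem_or_inv_mem x).resolve_left hxV
  have hares : IsLocalRing.residue V ⟨x⁻¹, haV⟩ = 0 := by
    by_contra hne
    have hu : IsUnit (⟨x⁻¹, haV⟩ : V) := by
      by_contra hnu
      exact hne ((IsLocalRing.residue_eq_zero_iff _).2 ((IsLocalRing.mem_maximalIdeal _).2 hnu))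
    obtain ⟨t, ht⟩ := hu.exists_right_inv
    have h1 : x⁻¹ * (t : L) = 1 := congrArg (fun r : V => (r : L)) ht
    apply hxV
    have : x = t := by field_simp at h1; exact h1.symm
    rw [this]
    exact t.2
  -- `y ^ 2 / x ^ 3`
  obtain ⟨q, hq⟩ : ∃ q : V, q = 1 + (A : V) * ⟨x⁻¹, haV⟩ ^ 2 + (B : V) * ⟨x⁻¹, haV⟩ ^ 3 := ⟨_, rfl⟩
  have hqL : (q : L) = y ^ 2 / x ^ 3 := by
    rw [hq, hE]
    push_cast
    field_simp
  have hqres : IsLocalRing.residue V q = 1 := by
    rw [hq, map_add, map_add, map_one, map_mul, map_mul, map_pow, map_pow, hares]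
    simp
  have hqu : IsUnit q := by
    by_contra hnu
    have := (IsLocalRing.residue_eq_zero_iff _).2 ((IsLocalRing.mem_maximalIdeal _).2 hnu)
    rw [hqres] at this
    exact one_ne_zero this
  obtain ⟨b, hb⟩ := hqu.exists_right_inv
  have hbL : y ^ 2 / x ^ 3 * (b : L) = 1 := by
    rw [← hqL]
    exact congrArg (fun r : V => (r : L)) hb
  have hy0 : y ≠ 0 := by
    rintro rfl
    rw [zero_pow two_ne_zero, zero_div, zero_mul] at hbL
    exact zero_ne_one hbL
  have hbL' : (b : L) = x ^ 3 / y ^ 2 := by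
    field_simp at hbL ⊢
    linear_combination hbL
  have hbres : IsLocalRing.residue V b = 1 := by
    have := congrArg (IsLocalRing.residue V) hb
    rwa [map_mul, hqres, one_mul, map_one] at this
  have hs2 : (x / y) ^ 2 = (b : L) * x⁻¹ := by
    rw [hbL']
    field_simp
  have hsV : x / y ∈ V := hsq _ (by rw [hs2]; exact V.mul_mem _ _ b.2 haV)
  obtain ⟨s, hs⟩ : ∃ s : V, s = ⟨x / y, hsV⟩ := ⟨_, rfl⟩
  have hsL : (s : L) = x / y := by rw [hs]
  have hsres : IsLocalRing.residue V s = 0 := by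
    have h1 : s ^ 2 = b * ⟨x⁻¹, haV⟩ := by
      apply Subtype.ext
      rw [hs]
      exact hs2
    have h2 := congrArg (IsLocalRing.residue V) h1
    rw [map_pow, map_mul, hares, mul_zero] at h2
    exact pow_eq_zero_iff two_ne_zero |>.1 h2
  refine ⟨div_ne_zero hy0 hx0, fun c => ?_⟩
  have hval : ((c 0 : L) * y + (c 1 : L) * x + (c 2 : L)) / (y / x) ^ 3 =
      (((c 0 : V) * b + (c 1 : V) * (b * s) + (c 2 : V) * s ^ 3 : V) : L) := by
    push_cast
    rw [hbL', hsL]
    field_simp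
  refine ⟨by rw [hval]; exact Subtype.property _, ?_⟩
  have h1 : (⟨((c 0 : L) * y + (c 1 : L) * x + (c 2 : L)) / (y / x) ^ 3, by
      rw [hval]; exact Subtype.property _⟩ : V) =
      (c 0 : V) * b + (c 1 : V) * (b * s) + (c 2 : V) * s ^ 3 := Subtype.ext hval
  rw [h1]
  simp only [map_add, map_mul, map_pow, hbres, hsres, map_intCast]
  simp

end Pool.Agent.H90HL
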