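import Pool.Agent.H90HL.F3
import Pool.Agent.H90GC.H12

set_option autoImplicit false

/-!
Points of order three over number fields: integrality and size.
-/

open Polynomial NumberField

namespace Pool.Agent.H90HL

open Pool.Agent.H90GC

section

variable {K : Type} [Field K] [NumberField K]

/-- a point of order three: `(u, v)` is a flex and `l` is the slope of its tangent -/
structure Flex (A B : ℤ) (u v l : K) : Prop where
  pt : v ^ 2 = u ^ 3 + A * u + B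
  tan : 2 * v * l = 3 * u ^ 2 + A
  flex : l ^ 2 = 3 * u

variable {A B : ℤ} {u v l : K}

omit [NumberField K] in
lemma Flex.div3 (h : Flex A B u v l) :
    (3 * u) ^ 4 + 18 * A * (3 * u) ^ 2 + 108 * B * (3 * u) - 27 * A ^ 2 = 0 := by
  have e1 : (2 * v * l) ^ 2 = 4 * v ^ 2 * l ^ 2 := by ring
  rw [h.tan, h.pt, h.flex] at e1
  linear_combination -27 * e1

omit [NumberField K] in
lemma Flex.int_u (h : Flex A B u v l) : IsIntegral ℤ (3 * u) := by
  refine ⟨X ^ 4 + C (18 * A) * X ^ 2 + C (108 * B) * X - C (27 * A ^ 2), by monicity!, ?_⟩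
  simp only [eval₂_sub, eval₂_add, eval₂_mul, eval₂_pow, eval₂_X, eval₂_C]
  have := h.div3
  push_cast at this ⊢
  simp only [eq_intCast]
  push_cast
  linear_combination this

omit [NumberField K] in
lemma Flex.int_l (h : Flex A B u v l) : IsIntegral ℤ l := by
  apply IsIntegral.of_pow (n := 2) (by norm_num)
  rw [h.flex]
  exact h.int_u

omit [NumberField K] in
lemma Flex.sq27 (h : Flex A B u v l) :
    (27 * v) ^ 2 = 27 * (3 * u) ^ 3 + 243 * A * (3 * u) + 729 * B := by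
  linear_combination 729 * h.pt

omit [NumberField K] in
lemma Flex.int_v (h : Flex A B u v l) : IsIntegral ℤ (27 * v) := by
  apply IsIntegral.of_pow (n := 2) (by norm_num)
  rw [h.sq27]
  have hi : ∀ c : ℤ, IsIntegral ℤ (c : K) := fun c => isIntegral_algebraMap
  have e1 := ((hi 27).mul (h.int_u.pow 3)).add
    ((((hi 243).mul (hi A)).mul h.int_u).add ((hi 729).mul (hi B)))
  have e2 : 27 * (3 * u) ^ 3 + 243 * A * (3 * u) + 729 * B = ((27 : ℤ) : K) * (3 * u) ^ 3 +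
      (((243 : ℤ) : K) * (A : K) * (3 * u) + ((729 : ℤ) : K) * (B : K)) := by
    push_cast
    ring
  rw [e2]
  exact e1

lemma Flex.v_ne (h : Flex A B u v l) (hΔ : 4 * A ^ 3 + 27 * B ^ 2 ≠ 0) : v ≠ 0 := by
  rintro rfl
  apply hΔ
  have h1 := h.pt
  have h2 := h.tan
  have hK : (4 * (A : K) ^ 3 + 27 * (B : K) ^ 2) = 0 := by
    linear_combination (-(18 * (A : K) * u - 27 * B)) * (-h1) +
      (-(6 * (A : K) * u ^ 2 - 9 * B * u + 4 * A ^ 2)) * h2
  exact_mod_cast hK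

omit [NumberField K] in
lemma Flex.hid (h : Flex A B u v l) :
    cub (A : K) B - (C l * X + C (v - l * u)) ^ 2 = (X - C u) ^ 3 := by
  have e1 : (A : K) - 2 * l * (v - l * u) = 3 * u ^ 2 := by
    linear_combination -h.tan + 2 * u * h.flex
  have e2 : (B : K) - (v - l * u) ^ 2 = -u ^ 3 := by
    linear_combination -h.pt + u * h.tan - u ^ 2 * h.flex
  have e3 : (C (A : K) : K[X]) - 2 * C l * C (v - l * u) = 3 * C u ^ 2 := by
    have := congrArg C e1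
    simp only [C_sub, C_mul, C_pow] at this ⊢
    exact this
  have e4 : (C (B : K) : K[X]) - C (v - l * u) ^ 2 = -C u ^ 3 := by
    have := congrArg C e2
    simp only [C_sub, C_mul, C_pow, C_neg] at this ⊢
    exact this
  have e5 : (C l : K[X]) ^ 2 = 3 * C u := by
    have := congrArg C h.flex
    simp only [C_mul, C_pow] at this ⊢
    exact this
  unfold cub
  linear_combination X * e3 + e4 - X ^ 2 * e5

lemma cauchy4 {z a b c : ℂ} {M : ℝ} (hM : 1 ≤ M) (h : z ^ 4 + a * z ^ 2 + b * z - c = 0)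
    (ha : ‖a‖ ≤ M) (hb : ‖b‖ ≤ M) (hc : ‖c‖ ≤ M) : ‖z‖ ≤ 3 * M := by
  by_contra hcon
  push Not at hcon
  obtain ⟨r, hr⟩ : ∃ r, r = ‖z‖ := ⟨_, rfl⟩
  rw [← hr] at hcon
  have hr1 : 1 ≤ r := by linarith
  have h1 : z ^ 4 = c - a * z ^ 2 - b * z := by linear_combination h
  have h2 : r ^ 4 ≤ M + M * r ^ 2 + M * r := by
    calc r ^ 4 = ‖z ^ 4‖ := by rw [norm_pow, hr]
      _ = ‖c - a * z ^ 2 - b * z‖ := by rw [h1]
      _ ≤ ‖c - a * z ^ 2‖ + ‖b * z‖ := norm_sub_le _ _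
      _ ≤ (‖c‖ + ‖a * z ^ 2‖) + ‖b * z‖ := by gcongr; exact norm_sub_le _ _
      _ = (‖c‖ + ‖a‖ * r ^ 2) + ‖b‖ * r := by rw [norm_mul, norm_mul, norm_pow, hr]
      _ ≤ M + M * r ^ 2 + M * r := by gcongr
  have h3 : r ^ 2 ≤ r ^ 3 := pow_le_pow_right₀ hr1 (by norm_num)
  have h4 : r ≤ r ^ 3 := by
    calc r = r ^ 1 := by rw [pow_one]
      _ ≤ r ^ 3 := pow_le_pow_right₀ hr1 (by norm_num)
  have h5 : 1 ≤ r ^ 3 := one_le_pow₀ hr1
  have h6 : M + M * r ^ 2 + M * r ≤ 3 * M * r ^ 3 := by nlinarith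
  have h7 : r ^ 4 = r * r ^ 3 := by ring
  nlinarith [mul_lt_mul_of_pos_right hcon (by positivity : 0 < r ^ 3)]

/-- bounds for the conjugates -/
theorem Flex.bounds (h : Flex A B u v l) {H : ℕ} (hH : 1 ≤ H) (hA : A.natAbs ≤ H)
    (hB : B.natAbs ≤ H) (τ : K →+* ℂ) :
    ‖τ (3 * u)‖ ≤ 324 * (H : ℝ) ^ 2 ∧ ‖τ l‖ ≤ 325 * (H : ℝ) ^ 2 ∧
      ‖τ (27 * v)‖ ≤ 10 ^ 5 * (H : ℝ) ^ 3 := by
  have hHR : (1 : ℝ) ≤ H := by exact_mod_cast hH
  have hAn : ‖(A : ℂ)‖ ≤ H := by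
    rw [Complex.norm_intCast, ← Int.cast_abs, ← Nat.cast_natAbs]
    exact_mod_cast hA
  have hBn : ‖(B : ℂ)‖ ≤ H := by
    rw [Complex.norm_intCast, ← Int.cast_abs, ← Nat.cast_natAbs]
    exact_mod_cast hB
  have hH2 : (H : ℝ) ≤ (H : ℝ) ^ 2 := by nlinarith
  have e1 := congrArg τ h.div3
  simp only [map_sub, map_add, map_mul, map_pow, map_ofNat, map_intCast, map_zero] at e1
  have b1 : ‖τ (3 * u)‖ ≤ 324 * (H : ℝ) ^ 2 := by
    have h1 : ‖τ (3 * u)‖ ≤ 3 * (108 * (H : ℝ) ^ 2) := by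
      apply cauchy4 (a := 18 * A) (b := 108 * B) (c := 27 * A ^ 2) (by nlinarith)
      · rw [map_mul, map_ofNat]
        exact e1
      · rw [norm_mul, Complex.norm_ofNat]; nlinarith
      · rw [norm_mul, Complex.norm_ofNat]; nlinarith
      · rw [norm_mul, norm_pow, Complex.norm_ofNat]
        have : ‖(A : ℂ)‖ ^ 2 ≤ (H : ℝ) ^ 2 := pow_le_pow_left₀ (norm_nonneg _) hAn 2
        nlinarith
    linarith
  refine ⟨b1, ?_, ?_⟩
  · have h1 : ‖τ l‖ ^ 2 = ‖τ (3 * u)‖ := by rw [← norm_pow, ← map_pow, h.flex]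
    have h0 := norm_nonneg (τ l)
    nlinarith
  · have h1 := congrArg τ h.sq27
    have h2 : ‖τ (27 * v)‖ ^ 2 ≤ 27 * ‖τ (3 * u)‖ ^ 3 + 243 * H * ‖τ (3 * u)‖ + 729 * H := by
      rw [← norm_pow, ← map_pow, h1]
      simp only [map_add]
      calc _ ≤ ‖τ (27 * (3 * u) ^ 3)‖ + ‖τ (243 * (A : K) * (3 * u))‖ + ‖τ (729 * (B : K))‖ :=
            (norm_add_le _ _).trans (by gcongr; exact norm_add_le _ _)
        _ = 27 * ‖τ (3 * u)‖ ^ 3 + 243 * ‖(A : ℂ)‖ * ‖τ (3 * u)‖ + 729 * ‖(B : ℂ)‖ := by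
            rw [map_mul τ 27, map_pow, map_mul τ (243 * (A : K)), map_mul τ 243, map_mul τ 729]
            rw [norm_mul, norm_pow, norm_mul, norm_mul, norm_mul, map_ofNat, map_ofNat, map_ofNat,
              map_intCast, map_intCast]
            norm_num
        _ ≤ _ := by gcongr
    have h3 : ‖τ (3 * u)‖ ^ 3 ≤ (324 * (H : ℝ) ^ 2) ^ 3 := pow_le_pow_left₀ (norm_nonneg _) b1 3
    have h6 : (H : ℝ) ≤ (H : ℝ) ^ 6 := by
      calc (H : ℝ) = (H : ℝ) ^ 1 := by rw [pow_one]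
        _ ≤ _ := pow_le_pow_right₀ hHR (by norm_num)
    have h36 : (H : ℝ) ^ 3 ≤ (H : ℝ) ^ 6 := pow_le_pow_right₀ hHR (by norm_num)
    have h4 : ‖τ (27 * v)‖ ^ 2 ≤ (10 ^ 5 * (H : ℝ) ^ 3) ^ 2 := by
      calc _ ≤ 27 * (324 * (H : ℝ) ^ 2) ^ 3 + 243 * H * (324 * (H : ℝ) ^ 2) + 729 * H := by
            refine h2.trans ?_
            gcongr
        _ = 918330048 * (H : ℝ) ^ 6 + 78732 * (H : ℝ) ^ 3 + 729 * H := by ring
        _ ≤ 918330048 * (H : ℝ) ^ 6 + 78732 * (H : ℝ) ^ 6 + 729 * (H : ℝ) ^ 6 := by gcongr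
        _ ≤ _ := by nlinarith [pow_nonneg (by linarith : (0 : ℝ) ≤ H) 6]
    exact (pow_le_pow_iff_left₀ (norm_nonneg _) (by positivity) two_ne_zero).1 h4

end

end Pool.Agent.H90HL
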