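import Pool.Agent.H90HL.F4

set_option autoImplicit false

/-!
Points of order three over number fields: the descent.
-/

open NumberField

namespace Pool.Agent.H90HL

open Pool.Agent.H90GC

section

variable {K : Type} [Field K] [NumberField K]

lemma norm_bound (z : 𝓞 K) (Q : ℝ) (h : ∀ τ : K →+* ℂ, ‖τ z‖ ≤ Q) :
    ((Algebra.norm ℤ z).natAbs : ℝ) ≤ Q ^ Module.finrank ℚ K := by
  classical
  have h1 : Algebra.norm ℚ (z : K) = ((Algebra.norm ℤ z : ℤ) : ℚ) := (Algebra.coe_norm_int z).symm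
  have h2 := Algebra.norm_eq_prod_embeddings ℚ ℂ (x := (z : K))
  rw [h1] at h2
  have h3 : (((Algebra.norm ℤ z).natAbs : ℕ) : ℝ) = ‖(((Algebra.norm ℤ z : ℤ) : ℚ) : ℂ)‖ := by
    rw [Nat.cast_natAbs, Int.cast_abs]
    push_cast
    rw [Complex.norm_intCast]
  have h4 : (algebraMap ℚ ℂ) ((Algebra.norm ℤ z : ℤ) : ℚ) = (((Algebra.norm ℤ z : ℤ) : ℚ) : ℂ) := rfl
  rw [h3, ← h4, h2, norm_prod]
  calc ∏ σ : K →ₐ[ℚ] ℂ, ‖σ (z : K)‖ ≤ ∏ _σ : K →ₐ[ℚ] ℂ, Q :=
        Finset.prod_le_prod (fun _ _ => norm_nonneg _) (fun σ _ => h σ.toRingHom)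
    _ = _ := by
      rw [Finset.prod_const, Finset.card_univ, AlgHom.card]

variable {A B : ℤ} {u v l : K}

theorem Flex.almost (h : Flex A B u v l) (hΔ : 4 * A ^ 3 + 27 * B ^ 2 ≠ 0) {x y : ℤ}
    (hxy : y ^ 2 = x ^ 3 + A * x + B) {lam V w : 𝓞 K} (hl : (lam : K) = l) (hV : (V : K) = 27 * v)
    (hw : (w : K) = 3 * u) :
    ∃ 𝔟 𝔡 : Ideal (𝓞 K), 𝔡 ∣ Ideal.span {2 * V} ^ (3 - 1) ∧
      Ideal.span {27 * (y : 𝓞 K) - V - 3 * lam * (9 * x - 3 * w)} = 𝔡 * 𝔟 ^ 3 := by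
  obtain ⟨D, hD⟩ : ∃ D : 𝓞 K, D = 9 * x - 3 * w := ⟨_, rfl⟩
  obtain ⟨a, ha⟩ : ∃ a : 𝓞 K, a = 27 * (y : 𝓞 K) - V - 3 * lam * D := ⟨_, rfl⟩
  obtain ⟨a2, ha2⟩ : ∃ a2 : 𝓞 K, a2 = 27 * (y : 𝓞 K) + V + 3 * lam * D := ⟨_, rfl⟩
  rw [← hD, ← ha]
  have hxyK : (y : K) ^ 2 = x ^ 3 + A * x + B := by exact_mod_cast congrArg (fun t : ℤ => (t : K)) hxy
  have hmul : a * a2 = D ^ 3 := by
    apply RingOfIntegers.coe_injective
    have hl' : algebraMap (𝓞 K) K lam = l := hl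
    have hV' : algebraMap (𝓞 K) K V = 27 * v := hV
    have hw' : algebraMap (𝓞 K) K w = 3 * u := hw
    rw [ha, ha2, hD]
    simp only [map_mul, map_sub, map_add, map_pow, map_ofNat, map_intCast, hl', hV', hw']
    linear_combination 729 * hxyK - 729 * h.pt - 729 * ((x : K) - u) * h.tan -
      729 * ((x : K) - u) ^ 2 * h.flex
  have hR0 : (2 * V : 𝓞 K) ≠ 0 := by
    intro h0
    have h1 := congrArg (algebraMap (𝓞 K) K) h0
    have hV' : algebraMap (𝓞 K) K V = 27 * v := hV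
    rw [map_mul, map_ofNat, map_zero, hV'] at h1
    have := h.v_ne hΔ
    apply this
    have h2 : (54 : K) * v = 0 := by linear_combination h1
    exact (mul_eq_zero.1 h2).resolve_left (by norm_num)
  have hRa : 2 * V = a2 - a - 6 * lam * D := by rw [ha, ha2]; ring
  refine almost_power2 (p := 3) (by norm_num) hR0 (Ideal.span {a, D}) ?_ (k := 2) ?_
  · have hD3 : D ^ 3 ∈ Ideal.span {a} := by
      rw [← hmul]
      exact Ideal.mul_mem_right _ _ (Ideal.mem_span_singleton_self a)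
    rw [pow_succ, pow_two, Ideal.mul_le]
    intro r hr s hs
    rw [Ideal.mem_span_pair] at hs
    obtain ⟨s1, s2, rfl⟩ := hs
    have hr' : ∃ r1 r2, r = r1 * a + r2 * D ^ 2 := by
      refine Submodule.mul_induction_on hr ?_ ?_
      · intro p hp q hq
        rw [Ideal.mem_span_pair] at hp hq
        obtain ⟨p1, p2, rfl⟩ := hp
        obtain ⟨q1, q2, rfl⟩ := hq
        exact ⟨p1 * (q1 * a + q2 * D) + p2 * D * q1, p2 * q2, by ring⟩
      · rintro _ _ ⟨r1, r2, rfl⟩ ⟨t1, t2, rfl⟩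
        exact ⟨r1 + t1, r2 + t2, by ring⟩
    obtain ⟨r1, r2, rfl⟩ := hr'
    have e1 : (r1 * a + r2 * D ^ 2) * (s1 * a + s2 * D) =
        (r1 * (s1 * a + s2 * D) + r2 * D ^ 2 * s1) * a + r2 * s2 * D ^ 3 := by ring
    rw [e1]
    exact Ideal.add_mem _ (Ideal.mul_mem_left _ _ (Ideal.mem_span_singleton_self a))
      (Ideal.mul_mem_left _ _ hD3)
  · have haJ : a ∈ Ideal.span {a, D} := Ideal.subset_span (by simp)
    have hDJ : D ∈ Ideal.span {a, D} := Ideal.subset_span (by simp)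
    have h3 : ∀ p q r : 𝓞 K, p ∈ Ideal.span {a, D} → q ∈ Ideal.span {a, D} →
        r ∈ Ideal.span {a, D} → p * q * r ∈ Ideal.span {a, D} ^ 3 := by
      intro p q r hp hq hr
      rw [pow_succ, pow_two]
      exact Ideal.mul_mem_mul (Ideal.mul_mem_mul hp hq) hr
    have e1 : (2 * V) ^ 2 * a = (2 * V - a - 6 * lam * D) * (D * D * D) + a * a * a +
        (12 * lam) * (D * a * a) + (36 * lam ^ 2) * (D * D * a) := by
      have e2 : 2 * V * a = D ^ 3 - a ^ 2 - 6 * lam * D * a := by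
        rw [← hmul, hRa]; ring
      calc (2 * V) ^ 2 * a = 2 * V * (2 * V * a) := by ring
        _ = 2 * V * D ^ 3 - a * (2 * V * a) - 6 * lam * D * (2 * V * a) := by
          rw [e2]
          have e3 : 2 * V * (D ^ 3 - a ^ 2 - 6 * lam * D * a) =
            2 * V * D ^ 3 - a * (2 * V * a) - 6 * lam * D * (2 * V * a) := by ring
          rw [e3, e2]
        _ = _ := by
          rw [e2]
          ring
    rw [e1]
    exact Ideal.add_mem _ (Ideal.add_mem _ (Ideal.add_mem _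
      (Ideal.mul_mem_left _ _ (h3 _ _ _ hDJ hDJ hDJ)) (h3 _ _ _ haJ haJ haJ))
      (Ideal.mul_mem_left _ _ (h3 _ _ _ hDJ haJ haJ)))
      (Ideal.mul_mem_left _ _ (h3 _ _ _ hDJ hDJ haJ))

omit [NumberField K] in
/-- the function of the point of order three, integral -/
theorem Flex.exists_int (h : Flex A B u v l) : ∃ lam V w : 𝓞 K, (lam : K) = l ∧
    (V : K) = 27 * v ∧ (w : K) = 3 * u :=
  ⟨⟨l, h.int_l⟩, ⟨27 * v, h.int_v⟩, ⟨3 * u, h.int_u⟩, rfl, rfl, rfl⟩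

/-- small representatives of the descent classes -/
theorem small_class (K : Type) [Field K] [NumberField K] : ∃ D : ℕ, 1 ≤ D ∧
    ∀ (A B : ℤ) (u v l : K) (x y : ℤ) (H : ℕ), 1 ≤ H → A.natAbs ≤ H → B.natAbs ≤ H →
    Flex A B u v l → 4 * A ^ 3 + 27 * B ^ 2 ≠ 0 → y ^ 2 = x ^ 3 + A * x + B →
    ∃ (θ : 𝓞 K) (z : K), θ ≠ 0 ∧ θ * (y - v - l * (x - u)) = z ^ 3 ∧
      ∀ τ : K →+* ℂ, ‖τ θ‖ ≤ ((D * H) ^ (27 * Module.finrank ℚ K) : ℕ) := by
  obtain ⟨D0, hD01, htw⟩ := twist (p := 3) (by norm_num)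
    ((RingOfIntegers.basis K).reindex (Fintype.equivFin _))
  refine ⟨D0 * (2 * 10 ^ 5), by omega, ?_⟩
  intro A B u v l x y H hH hA hB h hΔ hxy
  obtain ⟨lam, V, w, hl, hV, hw⟩ := h.exists_int
  have hR0 : (2 * V : 𝓞 K) ≠ 0 := by
    intro h0
    have h1 := congrArg (algebraMap (𝓞 K) K) h0
    have hV' : algebraMap (𝓞 K) K V = 27 * v := hV
    rw [map_mul, map_ofNat, map_zero, hV'] at h1
    have := h.v_ne hΔ
    apply this
    have h2 : (54 : K) * v = 0 := by linear_combination h1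
    exact (mul_eq_zero.1 h2).resolve_left (by norm_num)
  obtain ⟨θ, ζ, hθ0, hζ, hθ, -⟩ := htw (2 * V) _ hR0 (h.almost hΔ hxy hl hV hw)
  refine ⟨θ, (ζ : K) / 3, hθ0, ?_, ?_⟩
  · have h1 := congrArg (algebraMap (𝓞 K) K) hζ
    have hl' : algebraMap (𝓞 K) K lam = l := hl
    have hV' : algebraMap (𝓞 K) K V = 27 * v := hV
    have hw' : algebraMap (𝓞 K) K w = 3 * u := hw
    simp only [map_mul, map_sub, map_pow, map_ofNat, map_intCast, hl', hV', hw'] at h1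
    linear_combination h1 / 27
  · intro τ
    have h1 := hθ (τ.comp (algebraMap (𝓞 K) K))
    have h2 : ‖(τ.comp (algebraMap (𝓞 K) K)) θ‖ = ‖τ θ‖ := rfl
    rw [h2] at h1
    refine h1.trans ?_
    have hn : 1 ≤ Module.finrank ℚ K := Module.finrank_pos
    have hN : (Algebra.norm ℤ (2 * V)).natAbs ≤ (2 * 10 ^ 5 * H ^ 3) ^ Module.finrank ℚ K := by
      have h3 := norm_bound (2 * V) ((2 * 10 ^ 5 * H ^ 3 : ℕ) : ℝ) (fun τ => by
        have h4 := (h.bounds hH hA hB τ).2.2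
        have hV' : algebraMap (𝓞 K) K V = 27 * v := hV
        have h6 : ‖τ (algebraMap (𝓞 K) K (2 * V))‖ = 2 * ‖τ (27 * v)‖ := by
          rw [map_mul, map_mul, norm_mul, map_ofNat, map_ofNat, Complex.norm_ofNat, hV']
        have h7 : ‖τ (algebraMap (𝓞 K) K (2 * V))‖ ≤ ((2 * 10 ^ 5 * H ^ 3 : ℕ) : ℝ) := by
          rw [h6]
          push_cast
          linarith
        exact h7)
      exact_mod_cast h3
    have h5 : (D0 * (Algebra.norm ℤ (2 * V)).natAbs) ^ 3 ^ 2 ≤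
        (D0 * (2 * 10 ^ 5) * H) ^ (27 * Module.finrank ℚ K) := by
      calc (D0 * (Algebra.norm ℤ (2 * V)).natAbs) ^ 3 ^ 2
          ≤ (D0 * (2 * 10 ^ 5 * H ^ 3) ^ Module.finrank ℚ K) ^ 3 ^ 2 :=
            Nat.pow_le_pow_left (Nat.mul_le_mul_left _ hN) _
        _ ≤ ((D0 * (2 * 10 ^ 5) * H) ^ (3 * Module.finrank ℚ K)) ^ 3 ^ 2 := by
            apply Nat.pow_le_pow_left
            rw [pow_mul]
            calc D0 * (2 * 10 ^ 5 * H ^ 3) ^ Module.finrank ℚ K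
                ≤ D0 ^ Module.finrank ℚ K * (2 * 10 ^ 5 * H ^ 3) ^ Module.finrank ℚ K :=
                  Nat.mul_le_mul_right _ (Nat.le_self_pow (by omega) _)
              _ = (D0 * (2 * 10 ^ 5) * H ^ 3) ^ Module.finrank ℚ K := by rw [← mul_pow]; ring
              _ ≤ ((D0 * (2 * 10 ^ 5) * H) ^ 3) ^ Module.finrank ℚ K := by
                apply Nat.pow_le_pow_left
                rw [mul_pow]
                exact Nat.mul_le_mul_right _ (Nat.le_self_pow (by norm_num) _)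
        _ = _ := by rw [← pow_mul]; ring_nf
    exact_mod_cast h5

end

end Pool.Agent.H90HL
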