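import Pool.Agent.H90HL.F5
import Pool.Agent.Y910.G.P5

set_option autoImplicit false

/-!
Integral points of elliptic curves with a point of order three over a number field.
-/

open NumberField IntermediateField

namespace Pool.Agent.H90HL

open Pool.Agent.H90GC Pool.Agent.H322R2

/-- `g` is a sum over the embeddings `τ` of `τ(b)` times cube roots of `τ(θ)`, for a `b` in `S`. -/
def CubeSum {K : Type} [Field K] [NumberField K] (S : Finset (𝓞 K)) (θ : 𝓞 K) (g : ℝ) : Prop :=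
  3 ≤ Module.finrank ℚ ℚ⟮g⟯ ∧ ∃ b ∈ S, ∃ w : (K →+* ℂ) → ℂ,
    (∀ τ, w τ ^ 3 = τ θ) ∧ (g : ℂ) = ∑ τ : K →+* ℂ, τ b * w τ

lemma nat_of_real {a b : ℕ} {c X : ℝ} (h : (a : ℝ) ≤ c * X) (hc : c ≤ b) {Y : ℕ} (hX : X ≤ Y)
    (hX0 : 0 ≤ X) : a ≤ b * Y := by
  have h1 : (a : ℝ) ≤ (b : ℝ) * Y := by
    refine h.trans ?_
    calc c * X ≤ b * X := mul_le_mul_of_nonneg_right hc hX0
      _ ≤ b * Y := mul_le_mul_of_nonneg_left hX (Nat.cast_nonneg _)
  exact_mod_cast h1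

lemma function_field {F : MvPolynomial (Fin 2) ℚ} (hirr : Irreducible F) :
    ∃ (L : Type) (_ : Field L) (_ : Algebra ℚ L) (π : MvPolynomial (Fin 2) ℚ →ₐ[ℚ] L),
      (∀ w, π w = 0 ↔ F ∣ w) ∧ (∀ z : L, ∃ w1 w2, π w2 ≠ 0 ∧ π w2 * z = π w1) := by
  obtain ⟨I, hI⟩ : ∃ I : Ideal (MvPolynomial (Fin 2) ℚ), I = Ideal.span {F} := ⟨_, rfl⟩
  have hIp : I.IsPrime := by
    rw [hI, Ideal.span_singleton_prime hirr.ne_zero]
    exact hirr.prime
  let π : MvPolynomial (Fin 2) ℚ →ₐ[ℚ] FractionRing (MvPolynomial (Fin 2) ℚ ⧸ I) :=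
    (IsScalarTower.toAlgHom ℚ (MvPolynomial (Fin 2) ℚ ⧸ I)
      (FractionRing (MvPolynomial (Fin 2) ℚ ⧸ I))).comp (Ideal.Quotient.mkₐ ℚ I)
  have hπ : ∀ w, π w = algebraMap (MvPolynomial (Fin 2) ℚ ⧸ I)
    (FractionRing (MvPolynomial (Fin 2) ℚ ⧸ I)) (Ideal.Quotient.mk I w) := fun w => rfl
  refine ⟨FractionRing (MvPolynomial (Fin 2) ℚ ⧸ I), inferInstance, inferInstance, π, ?_, ?_⟩
  · intro w
    rw [hπ, IsFractionRing.to_map_eq_zero_iff, Ideal.Quotient.eq_zero_iff_mem, hI,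
      Ideal.mem_span_singleton]
  · intro z
    obtain ⟨a, s, hs, hz⟩ := IsFractionRing.div_surjective (A := MvPolynomial (Fin 2) ℚ ⧸ I) z
    obtain ⟨w1, rfl⟩ := Ideal.Quotient.mk_surjective a
    obtain ⟨w2, rfl⟩ := Ideal.Quotient.mk_surjective s
    have hne : π w2 ≠ 0 := by
      rw [hπ]
      exact IsFractionRing.to_map_ne_zero_of_mem_nonZeroDivisors hs
    refine ⟨w1, w2, hne, ?_⟩
    rw [← hz, ← hπ, ← hπ]
    exact mul_div_cancel₀ _ hne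

theorem main : ∃ (C : ℕ → ℕ) (c : ℕ → IntermediateField ℚ ℝ → ℕ),
    ∀ (K : Type) [Field K] [NumberField K], ∃ (D : ℕ) (S : Finset (𝓞 K)), 
    ∀ (A B x y : ℤ) (u v l : K) (H : ℕ), 1 ≤ H → A.natAbs ≤ H → B.natAbs ≤ H →
    Flex A B u v l → 4 * A ^ 3 + 27 * B ^ 2 ≠ 0 → y ^ 2 = x ^ 3 + A * x + B →
    (∀ (θ : 𝓞 K) (z : K) (Q : ℕ), θ ≠ 0 → θ * (y - v - l * (x - u)) = z ^ 3 →
      (∀ τ : K →+* ℂ, ‖τ θ‖ ≤ Q) →
      (x.natAbs ≤ (C (Module.finrank ℚ K) * (D * Q * H)) ^ C (Module.finrank ℚ K) ∧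
        y.natAbs ≤ (C (Module.finrank ℚ K) * (D * Q * H)) ^ C (Module.finrank ℚ K)) ∨
      ∃ g : ℝ, CubeSum S θ g ∧
        x.natAbs ≤ (c (Module.finrank ℚ K) ℚ⟮g⟯ * (D * Q * H)) ^ C (Module.finrank ℚ K) ∧
        y.natAbs ≤ (c (Module.finrank ℚ K) ℚ⟮g⟯ * (D * Q * H)) ^ C (Module.finrank ℚ K)) ∧
    ∃ (θ : 𝓞 K) (z : K), θ ≠ 0 ∧ θ * (y - v - l * (x - u)) = z ^ 3 ∧
      ∀ τ : K →+* ℂ, ‖τ θ‖ ≤ ((D * H) ^ C (Module.finrank ℚ K) : ℕ) := by
  classical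
  choose! E κ ck p hE using fun n : ℕ => torsionCore 3 n le_rfl
  choose Cg cg hg using Pool.Agent.Y910.G.main
  obtain ⟨S0, hS0⟩ : ∃ S0, S0 = ∑ d' ∈ Finset.range 4, Cg d' := ⟨_, rfl⟩
  obtain ⟨C, hC⟩ : ∃ C : ℕ → ℕ, ∀ n, C n = 4 * E n 3 + κ n 3 + 4 * S0 + 27 * n :=
    ⟨fun n => _, fun n => rfl⟩
  refine ⟨C, fun n => ck n 3, ?_⟩
  intro K _ _
  obtain ⟨n, hnK⟩ : ∃ n, n = Module.finrank ℚ K := ⟨_, rfl⟩
  have hn : 1 ≤ n := by rw [hnK]; exact Module.finrank_pos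
  rw [← hnK]
  obtain ⟨hκ1, hκck, hp3, hpm, hc⟩ := hE n hn
  have hp : p n = 3 := le_antisymm (Nat.le_of_dvd (by norm_num) hpm) hp3
  rw [hp] at hc
  -- the basis
  obtain ⟨ω⟩ : Nonempty (Module.Basis (Fin n) ℤ (𝓞 K)) := by
    refine ⟨(RingOfIntegers.basis K).reindex (Fintype.equivFinOfCardEq ?_)⟩
    rw [hnK, ← RingOfIntegers.rank K, Module.finrank_eq_card_chooseBasisIndex]
  obtain ⟨c2, hc2, hrepr⟩ := repr_bound ω
  obtain ⟨c3, hc3, hmu⟩ := mu_bound ω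
  obtain ⟨b2, hb2⟩ := exists_nat_ge c2
  obtain ⟨b3, hb3⟩ := exists_nat_ge c3
  obtain ⟨D1, hD11, hsmall⟩ := small_class K
  obtain ⟨W, hW1, hWb⟩ : ∃ W : ℕ, 1 ≤ W ∧ ∀ (j : Fin n) (τ : 𝓞 K →+* ℂ), ‖τ (ω j)‖ ≤ W := by
    obtain ⟨b, hb⟩ := exists_nat_ge (∑ j, ∑ σ : K →+* ℂ, ‖σ (ω j)‖)
    refine ⟨b + 1, by omega, fun j τ => ?_⟩
    obtain ⟨σ, hσ⟩ := ext_emb τ
    have h1 : ‖σ (ω j)‖ ≤ ∑ σ : K →+* ℂ, ‖σ (ω j)‖ :=
      Finset.single_le_sum (f := fun σ : K →+* ℂ => ‖σ (ω j)‖)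
        (fun _ _ => norm_nonneg _) (Finset.mem_univ σ)
    have h2 : ∑ σ : K →+* ℂ, ‖σ (ω j)‖ ≤ ∑ j, ∑ σ : K →+* ℂ, ‖σ (ω j)‖ :=
      Finset.single_le_sum (f := fun j => ∑ σ : K →+* ℂ, ‖σ (ω j)‖)
        (fun _ _ => Finset.sum_nonneg fun _ _ => norm_nonneg _) (Finset.mem_univ j)
    rw [← hσ]
    push_cast
    linarith
  obtain ⟨M, hM⟩ : ∃ M, M = 4 + n * (3 * (b2 * (2 * 10 ^ 6))) := ⟨_, rfl⟩
  obtain ⟨D, hD⟩ : ∃ D, D = W * ((b3 + 1) * M) * D1 := ⟨_, rfl⟩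
  have hM1 : 1 ≤ M := by omega
  have hDpos : W * ((b3 + 1) * M) ≤ D := by rw [hD]; exact Nat.le_mul_of_pos_right _ hD11
  have hD1 : D1 ≤ D := by
    rw [hD]
    exact Nat.le_mul_of_pos_left _ (Nat.mul_pos hW1 (Nat.mul_pos (by omega) hM1))
  have hDone : 1 ≤ D := hD11.trans hD1
  refine ⟨D, (Finset.range (κ n 3 + 1)).image
    (fun s : ℕ => 3 * ∑ i : Fin n, (s : 𝓞 K) ^ (i : ℕ) * ω i), ?_⟩
  intro A B x y u v l H hH hA hB h hΔ hxy
  refine ⟨?_, ?_⟩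
  swap
  · obtain ⟨θ, z, h1, h2, h3⟩ := hsmall A B u v l x y H hH hA hB h hΔ hxy
    refine ⟨θ, z, h1, h2, fun τ => (h3 τ).trans ?_⟩
    rw [← hnK]
    have h4 : (D1 * H) ^ (27 * n) ≤ (D * H) ^ C n :=
      (Nat.pow_le_pow_left (Nat.mul_le_mul_right _ hD1) _).trans
        (Nat.pow_le_pow_right (Nat.mul_pos hDone hH) (by rw [hC]; omega))
    exact_mod_cast h4
  intro θ z Q hθ0 hθz hQ
  have hθK : (θ : K) ≠ 0 := RingOfIntegers.coe_ne_zero_iff.2 hθ0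
  have hQ1 : 1 ≤ Q := by
    obtain ⟨σ⟩ : Nonempty (K →+* ℂ) := inferInstance
    have h1 : 0 < ‖σ θ‖ := norm_pos_iff.2 (by rw [Ne, map_eq_zero]; exact hθK)
    have h2 : (0 : ℝ) < Q := h1.trans_le (hQ σ)
    exact_mod_cast h2
  obtain ⟨lam, V27, w, hl, hV, hw⟩ := h.exists_int
  have hl' : algebraMap (𝓞 K) K lam = l := hl
  have hV' : algebraMap (𝓞 K) K V27 = 27 * v := hV
  have hw' : algebraMap (𝓞 K) K w = 3 * u := hw
  -- the coefficients
  obtain ⟨cc, hcc⟩ : ∃ cc : Fin 3 → 𝓞 K, cc = ![27, -(27 * lam), -V27 + 9 * lam * w] := ⟨_, rfl⟩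
  obtain ⟨a, ha⟩ : ∃ a : Fin n → MvPolynomial (Fin 2) ℤ, a = fun j => lin (fun k => ω.repr (cc k) j) :=
    ⟨_, rfl⟩
  have hcc0 : cc 0 = 27 := by rw [hcc]; rfl
  have hcc1 : cc 1 = -(27 * lam) := by rw [hcc]; rfl
  have hcc2 : cc 2 = -V27 + 9 * lam * w := by rw [hcc]; rfl
  have hsumr : ∀ {T : Type} [CommRing T] (σ : 𝓞 K →+* T) (z : 𝓞 K),
      ∑ j, ((ω.repr z j : ℤ) : T) * σ (ω j) = σ z := by
    intro T _ σ z
    conv_rhs => rw [← ω.sum_repr z]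
    rw [map_sum]
    apply Finset.sum_congr rfl
    intro j _
    rw [zsmul_eq_mul, map_mul, map_intCast]
  have hsuma : ∀ {T : Type} [CommRing T] (σ : 𝓞 K →+* T) (ev : MvPolynomial (Fin 2) ℤ →+* T),
      ∑ j, ev (a j) * σ (ω j) = σ (cc 0) * ev (MvPolynomial.X 1) + σ (cc 1) * ev (MvPolynomial.X 0) +
        σ (cc 2) := by
    intro T _ σ ev
    rw [← hsumr σ (cc 0), ← hsumr σ (cc 1), ← hsumr σ (cc 2), Finset.sum_mul, Finset.sum_mul,
      ← Finset.sum_add_distrib, ← Finset.sum_add_distrib]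
    apply Finset.sum_congr rfl
    intro j _
    rw [ha]
    show ev (lin (fun k => ω.repr (cc k) j)) * σ (ω j) = _
    unfold lin
    have hCe : ∀ c : ℤ, ev (MvPolynomial.C c) = (c : T) := by
      intro c
      have : (MvPolynomial.C c : MvPolynomial (Fin 2) ℤ) = ((c : ℤ) : MvPolynomial (Fin 2) ℤ) := by
        simp
      rw [this, map_intCast]
    rw [map_add, map_add, map_mul, map_mul, hCe, hCe, hCe]
    ring
  -- sizes
  have hHR : (1 : ℝ) ≤ H := by exact_mod_cast hH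
  have hccb : ∀ k (τ : 𝓞 K →+* ℂ), ‖τ (cc k)‖ ≤ ((2 * 10 ^ 6 * H ^ 4 : ℕ) : ℝ) := by
    intro k τ
    obtain ⟨σ, hσ⟩ := ext_emb τ
    obtain ⟨g1, g2, g3⟩ := h.bounds hH hA hB σ
    have hσ' : ∀ z : 𝓞 K, τ z = σ (algebraMap (𝓞 K) K z) := fun z => (hσ z).symm
    have p12 : (1 : ℝ) ≤ (H : ℝ) ^ 2 := one_le_pow₀ hHR
    have p24 : (H : ℝ) ^ 2 ≤ (H : ℝ) ^ 4 := pow_le_pow_right₀ hHR (by norm_num)
    have p34 : (H : ℝ) ^ 3 ≤ (H : ℝ) ^ 4 := pow_le_pow_right₀ hHR (by norm_num)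
    push_cast
    fin_cases k
    · show ‖τ (cc 0)‖ ≤ _
      rw [hcc0, map_ofNat, Complex.norm_ofNat]
      nlinarith
    · show ‖τ (cc 1)‖ ≤ _
      rw [hcc1, map_neg, norm_neg, map_mul, map_ofNat, norm_mul, Complex.norm_ofNat, hσ', hl']
      nlinarith
    · show ‖τ (cc 2)‖ ≤ _
      rw [hcc2, map_add, map_neg, map_mul, map_mul, map_ofNat, hσ' V27, hσ' lam, hσ' w, hl', hV', hw']
      calc ‖-σ (27 * v) + 9 * σ l * σ (3 * u)‖ ≤ ‖-σ (27 * v)‖ + ‖9 * σ l * σ (3 * u)‖ :=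
            norm_add_le _ _
        _ = ‖σ (27 * v)‖ + 9 * ‖σ l‖ * ‖σ (3 * u)‖ := by
            rw [norm_neg, norm_mul, norm_mul, Complex.norm_ofNat]
        _ ≤ 10 ^ 5 * (H : ℝ) ^ 3 + 9 * (325 * (H : ℝ) ^ 2) * (324 * (H : ℝ) ^ 2) := by gcongr
        _ = 10 ^ 5 * (H : ℝ) ^ 3 + 947700 * (H : ℝ) ^ 4 := by ring
        _ ≤ _ := by nlinarith
  have hccn : ∀ k j, (ω.repr (cc k) j).natAbs ≤ b2 * (2 * 10 ^ 6 * H ^ 4) := by
    intro k j
    have h1 := hrepr (cc k) _ (hccb k) j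
    rw [← Int.cast_abs, ← Nat.cast_natAbs] at h1
    exact nat_of_real h1 hb2 le_rfl (Nat.cast_nonneg _)
  have hlen : len (wei A B) + ∑ j, len (a j) ≤ M * H ^ 4 := by
    have h1 : ∀ j, len (a j) ≤ 3 * (b2 * (2 * 10 ^ 6 * H ^ 4)) := by
      intro j
      rw [ha]
      refine (lin_len _).trans ?_
      have e0 := hccn 0 j
      have e1 := hccn 1 j
      have e2 := hccn 2 j
      omega
    have h2 : ∑ j, len (a j) ≤ n * (3 * (b2 * (2 * 10 ^ 6 * H ^ 4))) := by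
      calc ∑ j, len (a j) ≤ ∑ _j : Fin n, 3 * (b2 * (2 * 10 ^ 6 * H ^ 4)) :=
            Finset.sum_le_sum fun j _ => h1 j
        _ = _ := by rw [Finset.sum_const, Finset.card_univ, Fintype.card_fin, smul_eq_mul]
    have h3 : len (wei A B) ≤ 4 * H ^ 4 := by
      have h4 := wei_len A B
      have h5 : H ≤ H ^ 4 := Nat.le_self_pow (by norm_num) _
      omega
    calc len (wei A B) + ∑ j, len (a j) ≤ 4 * H ^ 4 + n * (3 * (b2 * (2 * 10 ^ 6 * H ^ 4))) :=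
          Nat.add_le_add h3 h2
      _ = M * H ^ 4 := by rw [hM]; ring
  have hmuQ : mu ω θ + 1 ≤ (b3 + 1) * Q := by
    have h1 := hmu θ Q (fun τ => by
      obtain ⟨σ, hσ⟩ := ext_emb τ
      rw [← hσ]
      exact hQ σ)
    have h2 : mu ω θ ≤ b3 * Q := nat_of_real h1 hb3 le_rfl (Nat.cast_nonneg _)
    nlinarith
  obtain ⟨N, hN⟩ : ∃ N, N = D * Q * H := ⟨_, rfl⟩
  rw [← hN]
  have hN1 : 1 ≤ N := by rw [hN]; exact Nat.mul_pos (Nat.mul_pos hDone hQ1) hH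
  have hsize : W * ((mu ω θ + 1) * (len (wei A B) + ∑ j, len (a j))) ≤ N ^ 4 := by
    calc W * ((mu ω θ + 1) * (len (wei A B) + ∑ j, len (a j)))
        ≤ W * (((b3 + 1) * Q) * (M * H ^ 4)) :=
          Nat.mul_le_mul_left _ (Nat.mul_le_mul hmuQ hlen)
      _ = (W * ((b3 + 1) * M)) * Q * H ^ 4 := by ring
      _ ≤ D ^ 4 * Q ^ 4 * H ^ 4 := by
        apply Nat.mul_le_mul_right
        exact Nat.mul_le_mul (hDpos.trans (Nat.le_self_pow (by norm_num) _))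
          (Nat.le_self_pow (by norm_num) _)
      _ = _ := by rw [hN]; ring
  have hprod : ∀ (s t : ℕ), 1 ≤ s → s ≤ t →
      (s * (W * ((mu ω θ + 1) * (len (wei A B) + ∑ j, len (a j))))) ^ E n 3 ≤ (t * N) ^ C n := by
    intro s t hs1 hst
    have h2 : s * (W * ((mu ω θ + 1) * (len (wei A B) + ∑ j, len (a j)))) ≤ (t * N) ^ 4 := by
      calc _ ≤ t * N ^ 4 := Nat.mul_le_mul hst hsize
        _ ≤ t ^ 4 * N ^ 4 := Nat.mul_le_mul_right _ (Nat.le_self_pow (by norm_num) _)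
        _ = _ := by rw [mul_pow]
    refine (Nat.pow_le_pow_left h2 _).trans ?_
    rw [← pow_mul]
    exact Nat.pow_le_pow_right (Nat.mul_pos (by omega) hN1) (by rw [hC]; omega)
  -- the function field
  have hirr := wei_irr A B
  obtain ⟨L, _, _, π, hker, hsurj⟩ := function_field hirr
  have hpt : MvPolynomial.eval ![x, y] (wei A B) = 0 := by rw [wei_eval, hxy, sub_self]
  have hCg : Cg (wei A B).totalDegree ≤ S0 := by
    rw [hS0]
    exact Finset.single_le_sum (f := fun d' => Cg d') (fun _ _ => Nat.zero_le _)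
      (Finset.mem_range.2 (by have := wei_deg A B; omega))
  rcases hg (wei A B).totalDegree (wei A B) rfl hirr L π hker hsurj x y hpt with hb | ⟨V, hV1, -⟩
  · left
    have h3 : (Cg (wei A B).totalDegree * len (wei A B)) ^ Cg (wei A B).totalDegree ≤
        (C n * N) ^ C n := by
      have h4 : len (wei A B) ≤ N ^ 4 := by
        calc len (wei A B) ≤ 1 * (1 * (len (wei A B) + ∑ j, len (a j))) := by omega
          _ ≤ W * ((mu ω θ + 1) * (len (wei A B) + ∑ j, len (a j))) :=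
            Nat.mul_le_mul hW1 (Nat.mul_le_mul_right _ (by omega))
          _ ≤ _ := hsize
      have hC1 : 1 ≤ C n := by have := hκ1 3; rw [hC]; omega
      calc (Cg (wei A B).totalDegree * len (wei A B)) ^ Cg (wei A B).totalDegree
          ≤ ((C n * N) ^ 4) ^ Cg (wei A B).totalDegree := by
            apply Nat.pow_le_pow_left
            rw [mul_pow]
            exact Nat.mul_le_mul ((by rw [hC]; omega : _ ≤ C n).trans
              (Nat.le_self_pow (by norm_num) _)) h4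
        _ = (C n * N) ^ (4 * Cg (wei A B).totalDegree) := by rw [← pow_mul]
        _ ≤ _ := Nat.pow_le_pow_right (Nat.mul_pos hC1 hN1) (by rw [hC]; omega)
    exact ⟨hb.1.trans h3, hb.2.trans h3⟩
  · obtain ⟨ζ, hζ⟩ : ∃ ζ : 𝓞 K, algebraMap (𝓞 K) K ζ = 3 * z := by
      have h1 : (3 * z) ^ 3 = ((θ * (27 * (y : 𝓞 K) - V27 - 3 * lam * (9 * x - 3 * w)) : 𝓞 K) : K) := by
        show _ = algebraMap (𝓞 K) K _
        simp only [map_mul, map_sub, map_ofNat, map_intCast, hl', hV', hw']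
        have h2 : algebraMap (𝓞 K) K θ * (y - v - l * (x - u)) = z ^ 3 := hθz
        linear_combination -27 * h2
      obtain ⟨ζ, hζ⟩ := int_of_pow (by norm_num) h1
      exact ⟨ζ, hζ⟩
    obtain ⟨hυ, hplace⟩ := place π hker V (fun hcon => ((hV1 V).2 rfl).2 hcon)
    have hpl : ∀ j, ∃ h : π (MvPolynomial.map (Int.castRingHom ℚ) (a j)) /
        (π (MvPolynomial.X 1) / π (MvPolynomial.X 0)) ^ 3 ∈ V,
        IsLocalRing.residue V ⟨_, h⟩ = ((ω.repr 27 j : ℤ) : IsLocalRing.ResidueField V) := by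
      intro j
      have h1 := hplace (fun k => ω.repr (cc k) j)
      rw [hcc0] at h1
      subst ha
      exact h1
    have hlead : ∀ (ψ : IsLocalRing.ResidueField V →+* ℝ) (τ : K →+* ℂ),
        ∑ j, ((ψ (IsLocalRing.residue V ⟨_, (hpl j).choose⟩) : ℝ) : ℂ) * τ (ω j) = 27 := by
      intro ψ τ
      have h1 := hsumr (τ.comp (algebraMap (𝓞 K) K)) 27
      have h0 : (τ.comp (algebraMap (𝓞 K) K)) 27 = 27 := map_ofNat _ 27
      rw [h0] at h1
      refine Eq.trans (Finset.sum_congr rfl fun j _ => ?_) h1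
      rw [(hpl j).choose_spec, map_intCast]
      push_cast
      rfl
    have hcore := hc K ω 3 W hW1 hWb (wei A B) a (wei_deg A B)
      (fun j => by rw [ha]; exact lin_deg _) hirr L π hker hsurj
      (by
        intro Ω _ i σ q κ' w'' hq hq3 hκ' hwcl heq
        have hq3' : q = 3 := (Nat.prime_dvd_prime_iff_eq hq Nat.prime_three).1 hq3
        subst hq3'
        have h1 := hsuma (σ.comp (algebraMap (𝓞 K) K))
          ((i.comp (π : MvPolynomial (Fin 2) ℚ →+* L)).comp (MvPolynomial.map (Int.castRingHom ℚ)))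
        have h2 : ∑ j, i (π (MvPolynomial.map (Int.castRingHom ℚ) (a j))) * σ ((ω j : 𝓞 K) : K) =
            σ 27 * (i (π (MvPolynomial.X 1)) - σ l * i (π (MvPolynomial.X 0)) - σ (v - l * u)) := by
          refine h1.trans ?_
          rw [hcc0, hcc1, hcc2]
          simp only [RingHom.comp_apply, map_neg, map_mul, map_add, map_ofNat, hl', hV', hw',
            MvPolynomial.map_X, map_sub]
          have e1 : (π : MvPolynomial (Fin 2) ℚ →+* L) (MvPolynomial.X 0) = π (MvPolynomial.X 0) := rfl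
          have e2 : (π : MvPolynomial (Fin 2) ℚ →+* L) (MvPolynomial.X 1) = π (MvPolynomial.X 1) := rfl
          rw [e1, e2]
          ring
        rw [h2, ← mul_assoc, ← map_mul] at heq
        exact no_cube hΔ π hker hsurj i σ h.hid (mul_ne_zero hκ' (by norm_num)) w'' hwcl heq)
      θ ζ x y hθ0 hpt
      (by
        have h1 := hsuma (RingHom.id (𝓞 K))
          ((Int.castRingHom (𝓞 K)).comp (MvPolynomial.eval ![x, y]))
        have h2 : ∑ j, ((MvPolynomial.eval ![x, y] (a j) : ℤ) : 𝓞 K) * ω j =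
            27 * y + -(27 * lam) * x + (-V27 + 9 * lam * w) := by
          refine h1.trans ?_
          rw [hcc0, hcc1, hcc2]
          simp
        rw [h2]
        apply RingOfIntegers.coe_injective
        simp only [map_mul, map_add, map_neg, map_pow, map_ofNat, map_intCast, hl', hV', hw', hζ]
        have h2 : algebraMap (𝓞 K) K θ * (y - v - l * (x - u)) = z ^ 3 := hθz
        linear_combination 27 * h2)
      V _ (fun V' h1 h2 => (hV1 V').1 ⟨h1, h2⟩) hυ (fun j => (hpl j).choose)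
      (fun ψ τ => by rw [hlead ψ τ]; norm_num)
    rcases hcore with h1 | ⟨ψ, s, ϖ, w3, hs, hfr, hw3, hϖ, h1, h2⟩
    · left
      have h3 : κ n 3 ≤ C n := by rw [hC]; omega
      exact ⟨h1.1.trans (hprod _ _ (hκ1 3) h3), h1.2.trans (hprod _ _ (hκ1 3) h3)⟩
    · right
      have h3 := (hκ1 3).trans (hκck 3 ℚ⟮ϖ⟯)
      refine ⟨ϖ, ⟨hfr, 3 * ∑ i : Fin n, (s : 𝓞 K) ^ (i : ℕ) * ω i, ?_, fun τ => w3 τ / 3, ?_, ?_⟩,
        h1.trans (hprod _ _ h3 le_rfl), h2.trans (hprod _ _ h3 le_rfl)⟩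
      · exact Finset.mem_image.2 ⟨s, Finset.mem_range.2 (by omega), rfl⟩
      · intro τ
        have h4 := hw3 τ
        rw [hlead ψ τ] at h4
        rw [div_pow, h4]
        norm_num
      · rw [hϖ]
        apply Finset.sum_congr rfl
        intro τ _
        have h4 : τ ((3 * ∑ i : Fin n, (s : 𝓞 K) ^ (i : ℕ) * ω i : 𝓞 K) : K) =
            3 * τ (∑ i : Fin n, (s : K) ^ (i : ℕ) * ω i) := by
          have h5 : algebraMap (𝓞 K) K (3 * ∑ i : Fin n, (s : 𝓞 K) ^ (i : ℕ) * ω i) =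
              3 * ∑ i : Fin n, (s : K) ^ (i : ℕ) * ω i := by
            simp only [map_mul, map_ofNat, map_sum, map_pow, map_natCast]
          have h6 := congrArg τ h5
          rw [map_mul τ 3, map_ofNat] at h6
          exact h6
        rw [h4]
        ring

end Pool.Agent.H90HL
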